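import Pool.Agent.K1H62.PG.Sev
import Pool.Agent.K1H62.PG.Main
import Pool.Agent.K1H52.PG.OrdA
import Pool.Agent.K1H75.PG.BC
import Pool.Agent.K1H38.PG.D

set_option autoImplicit false

/-!
# The countable-or-perfect dichotomy for permutation graphs with bounded cliques

The countable-or-perfect dichotomy for the isomorphism types, with unary predicates, of the graphs
all of whose infinite prime induced subgraphs are permutation graphs with bounded cliques or bounded
independent sets, and of the partial orders all of whose infinite prime suborders have dimension at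
most two and bounded chains or bounded antichains.
-/

namespace Pool.Agent.Results.MP_5607ba_lc.BoundedPermutationGraphs

/-- Structures on `ℕ` with a binary relation `x.1` and unary predicates `x.2 0, x.2 1, ...`. -/
abbrev Str : Type := (ℕ → ℕ → Bool) × (ℕ → ℕ → Bool)

/-- Isomorphism of structures. -/
def Iso (x y : Str) : Prop :=
  ∃ σ : Equiv.Perm ℕ, (∀ u v, y.1 (σ u) (σ v) = x.1 u v) ∧ ∀ i u, y.2 i (σ u) = x.2 i u

/-- The countable-or-perfect dichotomy for the structures whose binary relation is in the class `K`,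
with arbitrary unary predicates: every isomorphism-invariant Borel class of such structures has
countably many isomorphism types, or it contains a continuous family, indexed by the Cantor space,
of pairwise non-isomorphic structures. -/
def CountableOrPerfect (K : (ℕ → ℕ → Prop) → Prop) : Prop :=
  ∀ B : Set Str, MeasurableSet B → (∀ x y, Iso x y → (x ∈ B ↔ y ∈ B)) →
    (∀ x ∈ B, K fun u v => x.1 u v = true) →
    (∃ f : ℕ → Str, ∀ x ∈ B, ∃ n, Iso (f n) x) ∨
    (∃ g : (ℕ → Bool) → Str, Continuous g ∧ (∀ c, g c ∈ B) ∧ ∀ c d, Iso (g c) (g d) → c = d)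

/-- `X` is a module (homogeneous set, autonomous set) of the relation `A`: the elements of `X` are
in the same relation with each element outside `X`. -/
def Module (A : ℕ → ℕ → Prop) (X : Set ℕ) : Prop :=
  ∀ u ∈ X, ∀ v ∈ X, ∀ w, w ∉ X → (A u w ↔ A v w) ∧ (A w u ↔ A w v)

/-- All modules have at most one element or are everything. -/
def Prime (A : ℕ → ℕ → Prop) : Prop := ∀ X : Set ℕ, Module A X → X.Subsingleton ∨ X = Set.univ

/-- Strict linear orders. -/
structure IsLinear (r : ℕ → ℕ → Prop) : Prop where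
  irrefl : ∀ u, ¬ r u u
  trans : ∀ u v w, r u v → r v w → r u w
  total : ∀ u v, u ≠ v → r u v ∨ r v u

/-- `A` is a permutation graph: for some two linear orders two points are adjacent if and only if
the orders disagree on them. -/
def IsPermutationGraph (A : ℕ → ℕ → Prop) : Prop :=
  ∃ l k : ℕ → ℕ → Prop, IsLinear l ∧ IsLinear k ∧ ∀ u v, A u v ↔ (l u v ∧ k v u) ∨ (l v u ∧ k u v)

/-- There are no `s` points any two of which are in the relation `R`. -/
def No (s : ℕ) (R : ℕ → ℕ → Prop) : Prop := ¬ ∃ a : Fin s → ℕ, ∀ i j, i < j → R (a i) (a j)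

/-- `A` is a graph, and its restriction to every infinite set, enumerated by `e`, on which it is
prime, is a permutation graph and has, for some `s`, no `s` pairwise adjacent points or no `s`
distinct pairwise non-adjacent points. -/
structure Graphs (A : ℕ → ℕ → Prop) : Prop where
  symm : ∀ u v, A u v → A v u
  irrefl : ∀ u, ¬ A u u
  prime : ∀ e : ℕ → ℕ, Function.Injective e → Prime (fun u v => A (e u) (e v)) →
    IsPermutationGraph (fun u v => A (e u) (e v)) ∧
    ∃ s, No s (fun u v => A (e u) (e v)) ∨ No s (fun u v => u ≠ v ∧ ¬ A (e u) (e v))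

/-- `r` is a partial order, and its restriction to every infinite set, enumerated by `e`, on which
it is prime, is the intersection of two linear orders and has, for some `s`, no `s` pairwise
comparable points or no `s` distinct pairwise incomparable points. -/
structure Orders (r : ℕ → ℕ → Prop) : Prop where
  irrefl : ∀ u, ¬ r u u
  trans : ∀ u v w, r u v → r v w → r u w
  prime : ∀ e : ℕ → ℕ, Function.Injective e → Prime (fun u v => r (e u) (e v)) →
    (∃ l k, IsLinear l ∧ IsLinear k ∧ ∀ u v, r (e u) (e v) ↔ l u v ∧ k u v) ∧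
    ∃ s, No s (fun u v => r (e u) (e v) ∨ r (e v) (e u)) ∨
      No s (fun u v => u ≠ v ∧ ¬ r (e u) (e v) ∧ ¬ r (e v) (e u))

open Pool.Agent.W878.VC

private theorem slo_iff (l : ℕ → ℕ → Prop) : SLO l ↔ IsLinear l :=
  ⟨fun h => ⟨h.irr, h.trans, h.total⟩, fun h => ⟨⟨h.irrefl, h.trans⟩, h.total⟩⟩

/-- as a structure with one relation -/
private def up (x : Str) : SS 1 := (fun _ => x.1, x.2)

private def dn (x : SS 1) : Str := (x.1 0, x.2)

private theorem up_dn (x : SS 1) : up (dn x) = x := by
  refine Prod.ext ?_ rfl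
  funext i
  have : i = 0 := Subsingleton.elim _ _
  rw [this]
  rfl

private theorem iso_iff (x y : Str) : Iso x y ↔ ∃ σ, up y = aS σ (up x) := by
  refine exists_congr fun σ => ?_
  have e1 : ∀ u, σ (σ⁻¹ u) = u := fun u => σ.apply_symm_apply u
  have e2 : ∀ u, σ⁻¹ (σ u) = u := fun u => σ.symm_apply_apply u
  constructor
  · rintro ⟨h1, h2⟩
    refine Prod.ext ?_ ?_
    · funext i u v
      show y.1 u v = x.1 (σ⁻¹ u) (σ⁻¹ v)
      rw [← h1, e1, e1]
    · funext i u
      show y.2 i u = x.2 i (σ⁻¹ u)
      rw [← h2, e1]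
  · intro h
    refine ⟨fun u v => ?_, fun i u => ?_⟩
    · have h1 : y.1 (σ u) (σ v) = x.1 (σ⁻¹ (σ u)) (σ⁻¹ (σ v)) :=
        congrFun (congrFun (congrFun (congrArg Prod.fst h) 0) (σ u)) (σ v)
      rw [h1, e2, e2]
    · have h1 : y.2 i (σ u) = x.2 i (σ⁻¹ (σ u)) :=
        congrFun (congrFun (congrArg Prod.snd h) i) (σ u)
      rw [h1, e2]

private theorem dicho_of {K : (ℕ → ℕ → Prop) → Prop}
    (h : VS (m := 1) fun r => K fun u v => r 0 u v = true) : CountableOrPerfect K := by
  intro B hB hi hK
  have c1 : Continuous dn :=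
    ((continuous_apply 0).comp continuous_fst).prodMk continuous_snd
  have c2 : Continuous up := (continuous_pi fun _ => continuous_fst).prodMk continuous_snd
  have bs : BorelSpace Str := by
    have b0 : BorelSpace (ℕ → Bool) := Pi.borelSpace
    have b2 : BorelSpace (ℕ → ℕ → Bool) := Pi.borelSpace
    exact Prod.borelSpace
  have bt : BorelSpace (SS 1) := by
    have b0 : BorelSpace (ℕ → Bool) := Pi.borelSpace
    have b2 : BorelSpace (ℕ → ℕ → Bool) := Pi.borelSpace
    have b3 : BorelSpace (Fin 1 → ℕ → ℕ → Bool) := Pi.borelSpace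
    exact Prod.borelSpace
  rcases h (dn ⁻¹' B) (c1.measurable hB) (fun x hx σ => by
      have h1 : Iso (dn x) (dn (aS σ x)) := (iso_iff _ _).2 ⟨σ, by rw [up_dn, up_dn]⟩
      exact (hi _ _ h1).1 hx) (fun x hx => hK _ hx) with ⟨f, hf⟩ | ⟨g, hg, hgB, hgi⟩
  · left
    refine ⟨fun n => dn (f n), fun x hx => ?_⟩
    obtain ⟨n, σ, hσ⟩ := hf (up x) hx
    exact ⟨n, (iso_iff _ _).2 ⟨σ, by rw [up_dn]; exact hσ⟩⟩
  · right
    refine ⟨fun c => dn (g c), c1.comp hg, hgB, fun c d hcd => ?_⟩
    obtain ⟨σ, hσ⟩ := (iso_iff _ _).1 hcd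
    rw [up_dn, up_dn] at hσ
    exact hgi c d ⟨σ, hσ⟩

/-- The countable-or-perfect dichotomy for isomorphism types, with unary predicates, holds (1) for the graphs all of whose
infinite prime induced subgraphs are permutation graphs with bounded cliques or bounded independent
sets, and (2) for the partial orders all of whose infinite prime suborders have dimension at most
two and bounded chains or bounded antichains. -/
theorem result : CountableOrPerfect Graphs ∧ CountableOrPerfect Orders := by
  have h1 := Pool.Agent.K1H62.PG.vs_GG Pool.Agent.K1H52.PG.t_A Pool.Agent.K1H75.PG.t_B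
    Pool.Agent.K1H75.PG.t_C Pool.Agent.K1H38.PG.t_D Pool.Agent.K1H62.PG.vs_V2
  have h2 := Pool.Agent.K1H62.PG.vs_PP h1
  constructor
  · refine dicho_of fun B k1 k2 k3 => h1 B k1 k2 fun x hx => ?_
    have h := k3 x hx
    refine ⟨⟨h.symm, h.irrefl⟩, fun e he hp => ?_⟩
    obtain ⟨⟨l, k, hl, hk, hlk⟩, s, hs⟩ := h.prime e he hp
    exact ⟨⟨l, k, (slo_iff l).2 hl, (slo_iff k).2 hk, hlk⟩, s, hs⟩
  · refine dicho_of fun B k1 k2 k3 => h2 B k1 k2 fun x hx => ?_
    have h := k3 x hx
    refine ⟨⟨h.irrefl, h.trans⟩, fun e he hp => ?_⟩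
    obtain ⟨⟨l, k, hl, hk, hlk⟩, s, hs⟩ := h.prime e he hp
    exact ⟨⟨l, k, (slo_iff l).2 hl, (slo_iff k).2 hk, hlk⟩, s, hs⟩

end Pool.Agent.Results.MP_5607ba_lc.BoundedPermutationGraphs
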