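import Pool.Agent.K1H66.TV.Gauge

/-!
# Structures with values in Polish spaces, and compact groups of local transformations

The countable-or-perfect dichotomy for the group generated by the permutations of `ℕ` and a compact
group `N` of local transformations, acting on a Polish space of structures on `ℕ` whose relations
take values in arbitrary Polish spaces, and for invariant sets which are `F_σ` or, more generally,
`Σ₂` over Borel conditions on finite induced structures. Examples are the groups `K × Sym(ℕ)` and
`L ≀ Sym(ℕ)` with compact groups `K` and `L`. For trivial `N` the theorem is about isomorphism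
types, for instance about the isometry types of metrics on `ℕ`.

Sketch of the proof. Suppose that there are not perfectly many orbits. The closures of the sets of
induced structures with `n` elements of a member `x` of `B` are a Borel invariant, so only countably
many values of it occur. If `x` had infinitely many induced structures with `n` elements (up to
`N`), then Ramsey's theorem would give a family of substructures of `x` in `B` for which the
invariant takes uncountably many values. So every `x` has finitely many of them, and `B` is a
countable union of pieces which are `F_σ` sets in compact zero-dimensional spaces; there we apply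
the theorem of the starting files for such spaces (`Pool.Agent.H566X.main_TOP`).
-/

set_option autoImplicit false

namespace Pool.Agent.Results.MP_5607ba_lc.CompactGaugeGroups

open Set

/-- Structures on `ℕ`: for every `i` a function `x i` of `a i` variables from `ℕ` with values in
`Z i`. -/
abbrev Structures (a : ℕ → ℕ) (Z : ℕ → Type) : Type := (i : ℕ) → (Fin (a i) → ℕ) → Z i

/-- Structures on `{0, ..., n - 1}`. -/
abbrev FinStructures (a : ℕ → ℕ) (Z : ℕ → Type) (n : ℕ) : Type :=
  (i : ℕ) → (Fin (a i) → Fin n) → Z i

/-- The structure induced on `{0, ..., n - 1}`. -/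
def initial {a : ℕ → ℕ} {Z : ℕ → Type} (n : ℕ) (x : Structures a Z) : FinStructures a Z n :=
  fun i u => x i (fun k => (u k : ℕ))

/-- The action of the permutations of `ℕ` on the structures. -/
def relabel {a : ℕ → ℕ} {Z : ℕ → Type} (σ : Equiv.Perm ℕ) (x : Structures a Z) : Structures a Z :=
  fun i t => x i (fun k => σ.symm (t k))

/-- The elements of `N` act on the structures by local transformations (the structure which `ν • x`
induces on `{0, ..., n - 1}` depends, for given `ν`, only on the one which `x` induces there), and
the set of these transformations is normalised by the permutations. -/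
structure LocalAction (a : ℕ → ℕ) (Z : ℕ → Type) (N : Type) [Group N]
    [MulAction N (Structures a Z)] : Prop where
  loc : ∀ (ν : N) (n : ℕ) (x y : Structures a Z), initial n x = initial n y →
    initial n (ν • x) = initial n (ν • y)
  normalised : ∀ (ν : N) (σ : Equiv.Perm ℕ), ∃ ν' : N, ∀ x : Structures a Z,
    relabel σ (ν • x) = ν' • relabel σ x

/-- `x` and `y` are in the same orbit of the group generated by `N` and the permutations. -/
def SameOrbit {a : ℕ → ℕ} {Z : ℕ → Type} (N : Type) [Group N] [MulAction N (Structures a Z)]
    (x y : Structures a Z) : Prop :=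
  ∃ (ν : N) (σ : Equiv.Perm ℕ), y = ν • relabel σ x

/-- Let `Z i` be Polish spaces, let `N` be a compact group which acts continuously and by local
transformations on the Polish space of structures, and let `B` be a set of structures which is
invariant under `N` and under the permutations. Suppose that `B` is an `F_σ` set, or that there are
`N`-invariant Borel sets `Θ k n` of structures with `n` elements such that `x ∈ B` iff for some `k`
for all `n` the structure induced by `x` on `{0, ..., n - 1}` is in `Θ k n`. Then `B` contains
countably many orbits, or there is a continuous map from the Cantor space into `B` that sends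
different points to different orbits. -/
theorem result (a : ℕ → ℕ) (Z : ℕ → Type) [∀ i, TopologicalSpace (Z i)] [∀ i, PolishSpace (Z i)]
    [∀ i, MeasurableSpace (Z i)] [∀ i, BorelSpace (Z i)]
    (N : Type) [Group N] [TopologicalSpace N] [CompactSpace N] [MulAction N (Structures a Z)]
    [ContinuousSMul N (Structures a Z)] (hN : LocalAction a Z N) (B : Set (Structures a Z))
    (hB : (∃ F : ℕ → Set (Structures a Z), (∀ k, IsClosed (F k)) ∧ B = ⋃ k, F k) ∨
      ∃ Θ : ℕ → (n : ℕ) → Set (FinStructures a Z n), (∀ k n, MeasurableSet (Θ k n)) ∧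
        (∀ k n (ν : N) (x : Structures a Z), initial n x ∈ Θ k n → initial n (ν • x) ∈ Θ k n) ∧
        B = {x | ∃ k, ∀ n, initial n x ∈ Θ k n})
    (hinv : ∀ x ∈ B, ∀ y, SameOrbit N x y → y ∈ B) :
    (∃ C : Set (Structures a Z), C.Countable ∧ ∀ x ∈ B, ∃ c ∈ C, SameOrbit N c x) ∨
    (∃ g : (ℕ → Bool) → Structures a Z, Continuous g ∧ (∀ c, g c ∈ B) ∧
      ∀ c d, SameOrbit N (g c) (g d) → c = d) := by
  have hL : Pool.Agent.K1H66.TV.Local a Z N := by
    refine ⟨hN.loc, fun ν σ => ?_⟩
    obtain ⟨ν', h⟩ := hN.normalised ν σ.symm
    exact ⟨ν', h⟩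
  have hO : ∀ x y : Structures a Z, Pool.Agent.K1H66.TV.SameOrb N x y ↔ SameOrbit N x y := by
    intro x y
    constructor
    · rintro ⟨ν, σ, h⟩
      exact ⟨ν, σ.symm, h⟩
    · rintro ⟨ν, σ, h⟩
      exact ⟨ν, σ.symm, h⟩
  obtain ⟨Θ, h1, h2, h3⟩ : ∃ Θ : ℕ → (n : ℕ) → Set (FinStructures a Z n),
      (∀ k n, MeasurableSet (Θ k n)) ∧
      (∀ k n (ν : N) (x : Structures a Z), initial n x ∈ Θ k n → initial n (ν • x) ∈ Θ k n) ∧
        B = {x | ∃ k, ∀ n, initial n x ∈ Θ k n} := by
    rcases hB with ⟨F, hF, hBF⟩ | h
    · obtain ⟨Θ, h1, h2, h3⟩ := Pool.Agent.K1H66.TV.fsigma hL F hF B hBF (fun ν x hx =>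
        hinv x hx _ ⟨ν, 1, rfl⟩)
      exact ⟨Θ, fun k n => (h1 k n).measurableSet, h2, h3⟩
    · exact h
  have hBC : B = Pool.Agent.K1H66.TV.Cls Θ := h3
  have hi : Pool.Agent.K1H66.TV.Invt (Pool.Agent.K1H66.TV.Cls Θ) := by
    intro x hx σ
    rw [← hBC] at hx ⊢
    exact hinv x hx _ ⟨1, σ.symm, (one_smul N _).symm⟩
  rcases Pool.Agent.K1H66.TV.gauge hL Θ h1 h2 hi with ⟨C, hC1, hC2⟩ | ⟨g, hg1, hg2, hg3⟩
  · left
    refine ⟨C, hC1, fun x hx => ?_⟩
    rw [hBC] at hx
    obtain ⟨c, hc, h⟩ := hC2 x hx
    exact ⟨c, hc, (hO _ _).1 h⟩
  · right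
    refine ⟨g, hg1, fun c => ?_, fun c d h => hg3 c d ((hO _ _).2 h)⟩
    rw [hBC]
    exact hg2 c

end Pool.Agent.Results.MP_5607ba_lc.CompactGaugeGroups
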