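import Pool.Agent.K1H62.IV.Main
import Pool.Agent.K1H25.IV.IA
import Pool.Agent.K1H3.IV.IB
import Pool.Agent.K1H4.IV.CD
import Pool.Agent.K1H33.IV.IE

set_option autoImplicit false

/-!
# Interval graphs and interval orders of limited nesting

The countable-or-perfect dichotomy for the isomorphism types, with unary predicates, of the interval
orders of limited nesting and of the interval graphs of limited nesting, and more generally of the
partial orders and graphs all of whose infinite prime parts are of this kind.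
-/

namespace Pool.Agent.Results.MP_5607ba_lc.LimitedNesting

/-- Structures on `ℕ` with a binary relation `x.1` and unary predicates `x.2 0, x.2 1, ...`. -/
abbrev Str : Type := (ℕ → ℕ → Bool) × (ℕ → ℕ → Bool)

/-- Isomorphism of structures. -/
def Iso (x y : Str) : Prop :=
  ∃ σ : Equiv.Perm ℕ, (∀ u v, y.1 (σ u) (σ v) = x.1 u v) ∧ ∀ i u, y.2 i (σ u) = x.2 i u

/-- The countable-or-perfect dichotomy for the structures whose binary relation is in the class `K`,
with arbitrary unary predicates: every isomorphism-invariant Borel class of such structures has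
countably many isomorphism types, or it contains a continuous family, indexed by the Cantor space,
of pairwise non-isomorphic structures. -/
def CountableOrPerfect (K : (ℕ → ℕ → Prop) → Prop) : Prop :=
  ∀ B : Set Str, MeasurableSet B → (∀ x y, Iso x y → (x ∈ B ↔ y ∈ B)) →
    (∀ x ∈ B, K fun u v => x.1 u v = true) →
    (∃ f : ℕ → Str, ∀ x ∈ B, ∃ n, Iso (f n) x) ∨
    (∃ g : (ℕ → Bool) → Str, Continuous g ∧ (∀ c, g c ∈ B) ∧ ∀ c d, Iso (g c) (g d) → c = d)

/-- `X` is a module (homogeneous set, autonomous set) of the relation `A`: the elements of `X` are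
in the same relation with each element outside `X`. -/
def Module (A : ℕ → ℕ → Prop) (X : Set ℕ) : Prop :=
  ∀ u ∈ X, ∀ v ∈ X, ∀ w, w ∉ X → (A u w ↔ A v w) ∧ (A w u ↔ A w v)

/-- All modules have at most one element or are everything. -/
def Prime (A : ℕ → ℕ → Prop) : Prop := ∀ X : Set ℕ, Module A X → X.Subsingleton ∨ X = Set.univ

/-- Interval orders: strict partial orders without two disjoint incomparable chains
`a < b`, `c < d`. -/
structure IsIntervalOrder (P : ℕ → ℕ → Prop) : Prop where
  irrefl : ∀ u, ¬ P u u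
  trans : ∀ u v w, P u v → P v w → P u w
  interval : ∀ a b c d, P a b → P c d → P a d ∨ P c b

/-- The interval of `v` is strictly inside the interval of `u`: there is more below `v` than below
`u`, and more above `v` than above `u`. -/
def Nested (P : ℕ → ℕ → Prop) (u v : ℕ) : Prop :=
  ((∀ w, P w u → P w v) ∧ ¬ ∀ w, P w v → P w u) ∧ ((∀ w, P u w → P v w) ∧ ¬ ∀ w, P v w → P u w)

/-- For some `s` there are no `s` intervals each nested in the preceding ones, or there are no `s`
distinct intervals no two of which are nested. -/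
def LimitedNesting (P : ℕ → ℕ → Prop) : Prop := ∃ s,
  (¬ ∃ a : Fin s → ℕ, ∀ i j, i < j → Nested P (a i) (a j)) ∨
  ¬ ∃ a : Fin s → ℕ, ∀ i j, i < j →
    a i ≠ a j ∧ ¬ Nested P (a i) (a j) ∧ ¬ Nested P (a j) (a i)

/-- `A` is the incomparability graph of an interval order of limited nesting. -/
def IsIntervalGraph (A : ℕ → ℕ → Prop) : Prop :=
  ∃ P, IsIntervalOrder P ∧ (∀ u v, A u v ↔ u ≠ v ∧ ¬ P u v ∧ ¬ P v u) ∧ LimitedNesting P

/-- `A` is a graph, and its restriction to every infinite set, enumerated by `e`, on which it is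
prime, is an interval graph of limited nesting. -/
structure Graphs (A : ℕ → ℕ → Prop) : Prop where
  symm : ∀ u v, A u v → A v u
  irrefl : ∀ u, ¬ A u u
  prime : ∀ e : ℕ → ℕ, Function.Injective e → Prime (fun u v => A (e u) (e v)) →
    IsIntervalGraph fun u v => A (e u) (e v)

/-- `r` is a partial order, and its restriction to every infinite set, enumerated by `e`, on which
it is prime, is an interval order of limited nesting. -/
structure Orders (r : ℕ → ℕ → Prop) : Prop where
  irrefl : ∀ u, ¬ r u u
  trans : ∀ u v w, r u v → r v w → r u w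
  prime : ∀ e : ℕ → ℕ, Function.Injective e → Prime (fun u v => r (e u) (e v)) →
    IsIntervalOrder (fun u v => r (e u) (e v)) ∧ LimitedNesting fun u v => r (e u) (e v)

open Pool.Agent.W878.VC

/-- as a structure with one relation -/
private def up (x : Str) : SS 1 := (fun _ => x.1, x.2)

private def dn (x : SS 1) : Str := (x.1 0, x.2)

private theorem up_dn (x : SS 1) : up (dn x) = x := by
  refine Prod.ext ?_ rfl
  funext i
  have : i = 0 := Subsingleton.elim _ _
  rw [this]
  rfl

private theorem iso_iff (x y : Str) : Iso x y ↔ ∃ σ, up y = aS σ (up x) := by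
  refine exists_congr fun σ => ?_
  have e1 : ∀ u, σ (σ⁻¹ u) = u := fun u => σ.apply_symm_apply u
  have e2 : ∀ u, σ⁻¹ (σ u) = u := fun u => σ.symm_apply_apply u
  constructor
  · rintro ⟨h1, h2⟩
    refine Prod.ext ?_ ?_
    · funext i u v
      show y.1 u v = x.1 (σ⁻¹ u) (σ⁻¹ v)
      rw [← h1, e1, e1]
    · funext i u
      show y.2 i u = x.2 i (σ⁻¹ u)
      rw [← h2, e1]
  · intro h
    refine ⟨fun u v => ?_, fun i u => ?_⟩
    · have h1 : y.1 (σ u) (σ v) = x.1 (σ⁻¹ (σ u)) (σ⁻¹ (σ v)) :=
        congrFun (congrFun (congrFun (congrArg Prod.fst h) 0) (σ u)) (σ v)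
      rw [h1, e2, e2]
    · have h1 : y.2 i (σ u) = x.2 i (σ⁻¹ (σ u)) :=
        congrFun (congrFun (congrArg Prod.snd h) i) (σ u)
      rw [h1, e2]

private theorem dicho_of {K : (ℕ → ℕ → Prop) → Prop}
    (h : VS (m := 1) fun r => K fun u v => r 0 u v = true) : CountableOrPerfect K := by
  intro B hB hi hK
  have c1 : Continuous dn :=
    ((continuous_apply 0).comp continuous_fst).prodMk continuous_snd
  have c2 : Continuous up := (continuous_pi fun _ => continuous_fst).prodMk continuous_snd
  have bs : BorelSpace Str := by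
    have b0 : BorelSpace (ℕ → Bool) := Pi.borelSpace
    have b2 : BorelSpace (ℕ → ℕ → Bool) := Pi.borelSpace
    exact Prod.borelSpace
  have bt : BorelSpace (SS 1) := by
    have b0 : BorelSpace (ℕ → Bool) := Pi.borelSpace
    have b2 : BorelSpace (ℕ → ℕ → Bool) := Pi.borelSpace
    have b3 : BorelSpace (Fin 1 → ℕ → ℕ → Bool) := Pi.borelSpace
    exact Prod.borelSpace
  rcases h (dn ⁻¹' B) (c1.measurable hB) (fun x hx σ => by
      have h1 : Iso (dn x) (dn (aS σ x)) := (iso_iff _ _).2 ⟨σ, by rw [up_dn, up_dn]⟩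
      exact (hi _ _ h1).1 hx) (fun x hx => hK _ hx) with ⟨f, hf⟩ | ⟨g, hg, hgB, hgi⟩
  · left
    refine ⟨fun n => dn (f n), fun x hx => ?_⟩
    obtain ⟨n, σ, hσ⟩ := hf (up x) hx
    exact ⟨n, (iso_iff _ _).2 ⟨σ, by rw [up_dn]; exact hσ⟩⟩
  · right
    refine ⟨fun c => dn (g c), c1.comp hg, hgB, fun c d hcd => ?_⟩
    obtain ⟨σ, hσ⟩ := (iso_iff _ _).1 hcd
    rw [up_dn, up_dn] at hσ
    exact hgi c d ⟨σ, hσ⟩

/-- The countable-or-perfect dichotomy for isomorphism types, with unary predicates, holds (1) for
the graphs all of whose infinite prime induced subgraphs are interval graphs of limited nesting, and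
(2) for the partial orders all of whose infinite prime suborders are interval orders of limited
nesting. -/
theorem result : CountableOrPerfect Graphs ∧ CountableOrPerfect Orders := by
  have h1 := Pool.Agent.K1H62.IV.vs_GG Pool.Agent.K1H25.IV.t_IA Pool.Agent.K1H3.IV.t_IB
    Pool.Agent.K1H4.IV.t_IC Pool.Agent.K1H4.IV.t_ID Pool.Agent.K1H33.IV.t_IE
  have h2 := Pool.Agent.K1H62.IV.vs_PP Pool.Agent.K1H33.IV.t_IE h1
  constructor
  · refine dicho_of fun B k1 k2 k3 => h1 B k1 k2 fun x hx => ?_
    have h := k3 x hx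
    refine ⟨⟨h.symm, h.irrefl⟩, fun e he hp => ?_⟩
    obtain ⟨P, hP, hA, s, hs⟩ := h.prime e he hp
    exact ⟨P, ⟨⟨hP.irrefl, hP.trans⟩, hP.interval⟩, hA, s, hs⟩
  · refine dicho_of fun B k1 k2 k3 => h2 B k1 k2 fun x hx => ?_
    have h := k3 x hx
    refine ⟨⟨h.irrefl, h.trans⟩, fun e he hp => ?_⟩
    obtain ⟨hP, s, hs⟩ := h.prime e he hp
    exact ⟨hP.interval, s, hs⟩

end Pool.Agent.Results.MP_5607ba_lc.LimitedNesting
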