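import Pool.Agent.K1H62.LT.Main
import Pool.Agent.K1H62.LT.Four

set_option autoImplicit false

/-!
# The countable-or-perfect dichotomy for tournaments that omit a tournament with four points

The countable-or-perfect dichotomy for the isomorphism types, with unary predicates, of the
tournaments all of whose infinite prime subtournaments omit some tournament with four points. For
every tournament `H` with at most four points this class contains the tournaments that omit `H`; it
contains the local orders, and it is closed under lexicographic sums.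
-/

namespace Pool.Agent.Results.MP_5607ba_lc.TournamentsOmittingFourPoints

/-- Structures on `ℕ` with a binary relation `x.1` and unary predicates `x.2 0, x.2 1, ...`. -/
abbrev Str : Type := (ℕ → ℕ → Bool) × (ℕ → ℕ → Bool)

/-- Isomorphism of structures. -/
def Iso (x y : Str) : Prop :=
  ∃ σ : Equiv.Perm ℕ, (∀ u v, y.1 (σ u) (σ v) = x.1 u v) ∧ ∀ i u, y.2 i (σ u) = x.2 i u

/-- The countable-or-perfect dichotomy for the structures whose binary relation is in the class `K`,
with arbitrary unary predicates: every isomorphism-invariant Borel class of such structures has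
countably many isomorphism types, or it contains a continuous family, indexed by the Cantor space,
of pairwise non-isomorphic structures. -/
def CountableOrPerfect (K : (ℕ → ℕ → Prop) → Prop) : Prop :=
  ∀ B : Set Str, MeasurableSet B → (∀ x y, Iso x y → (x ∈ B ↔ y ∈ B)) →
    (∀ x ∈ B, K fun u v => x.1 u v = true) →
    (∃ f : ℕ → Str, ∀ x ∈ B, ∃ n, Iso (f n) x) ∨
    (∃ g : (ℕ → Bool) → Str, Continuous g ∧ (∀ c, g c ∈ B) ∧ ∀ c d, Iso (g c) (g d) → c = d)

/-- `X` is a module (homogeneous set) of the relation `A`: the elements of `X` are in the same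
relation with each element outside `X`. -/
def Module (A : ℕ → ℕ → Prop) (X : Set ℕ) : Prop :=
  ∀ u ∈ X, ∀ v ∈ X, ∀ w, w ∉ X → (A u w ↔ A v w) ∧ (A w u ↔ A w v)

/-- All modules have at most one element or are everything. -/
def Prime (A : ℕ → ℕ → Prop) : Prop := ∀ X : Set ℕ, Module A X → X.Subsingleton ∨ X = Set.univ

/-- `A` is a tournament on `V`. -/
structure IsTournament {V : Type} (A : V → V → Prop) : Prop where
  asymm : ∀ u v, A u v → ¬ A v u
  total : ∀ u v, u ≠ v → A u v ∨ A v u

/-- `A` contains a copy of `H`. -/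
def Contains {V : Type} (H : V → V → Prop) (A : ℕ → ℕ → Prop) : Prop :=
  ∃ f : V → ℕ, Function.Injective f ∧ ∀ i j, H i j ↔ A (f i) (f j)

/-- `A` is a tournament, and its restriction to every infinite set, enumerated by `e`, on which it
is prime does not contain some tournament with four points (which may depend on the set). -/
structure Tournaments (A : ℕ → ℕ → Prop) : Prop where
  tournament : IsTournament A
  prime : ∀ e : ℕ → ℕ, Function.Injective e → Prime (fun u v => A (e u) (e v)) →
    ∃ H : Fin 4 → Fin 4 → Prop, IsTournament H ∧ ¬ Contains H (fun u v => A (e u) (e v))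

/-- The tournaments that do not contain a fixed tournament with four points are in the class. -/
theorem omitting {H : Fin 4 → Fin 4 → Prop} (hH : IsTournament H) {A : ℕ → ℕ → Prop}
    (hA : IsTournament A) (h : ¬ Contains H A) : Tournaments A := by
  refine ⟨hA, fun e he _ => ⟨H, hH, ?_⟩⟩
  rintro ⟨f, hf, k⟩
  exact h ⟨fun i => e (f i), fun i j hij => hf (he hij), k⟩

open Pool.Agent.W878.VC

/-- as a structure with one relation -/
private def up (x : Str) : SS 1 := (fun _ => x.1, x.2)

private def dn (x : SS 1) : Str := (x.1 0, x.2)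

private theorem up_dn (x : SS 1) : up (dn x) = x := by
  refine Prod.ext ?_ rfl
  funext i
  have : i = 0 := Subsingleton.elim _ _
  rw [this]
  rfl

private theorem iso_iff (x y : Str) : Iso x y ↔ ∃ σ, up y = aS σ (up x) := by
  refine exists_congr fun σ => ?_
  have e1 : ∀ u, σ (σ⁻¹ u) = u := fun u => σ.apply_symm_apply u
  have e2 : ∀ u, σ⁻¹ (σ u) = u := fun u => σ.symm_apply_apply u
  constructor
  · rintro ⟨h1, h2⟩
    refine Prod.ext ?_ ?_
    · funext i u v
      show y.1 u v = x.1 (σ⁻¹ u) (σ⁻¹ v)
      rw [← h1, e1, e1]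
    · funext i u
      show y.2 i u = x.2 i (σ⁻¹ u)
      rw [← h2, e1]
  · intro h
    refine ⟨fun u v => ?_, fun i u => ?_⟩
    · have h1 : y.1 (σ u) (σ v) = x.1 (σ⁻¹ (σ u)) (σ⁻¹ (σ v)) :=
        congrFun (congrFun (congrFun (congrArg Prod.fst h) 0) (σ u)) (σ v)
      rw [h1, e2, e2]
    · have h1 : y.2 i (σ u) = x.2 i (σ⁻¹ (σ u)) :=
        congrFun (congrFun (congrArg Prod.snd h) i) (σ u)
      rw [h1, e2]

private theorem dicho_of {K : (ℕ → ℕ → Prop) → Prop}
    (h : VS (m := 1) fun r => K fun u v => r 0 u v = true) : CountableOrPerfect K := by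
  intro B hB hi hK
  have c1 : Continuous dn :=
    ((continuous_apply 0).comp continuous_fst).prodMk continuous_snd
  have c2 : Continuous up := (continuous_pi fun _ => continuous_fst).prodMk continuous_snd
  have bs : BorelSpace Str := by
    have b0 : BorelSpace (ℕ → Bool) := Pi.borelSpace
    have b2 : BorelSpace (ℕ → ℕ → Bool) := Pi.borelSpace
    exact Prod.borelSpace
  have bt : BorelSpace (SS 1) := by
    have b0 : BorelSpace (ℕ → Bool) := Pi.borelSpace
    have b2 : BorelSpace (ℕ → ℕ → Bool) := Pi.borelSpace
    have b3 : BorelSpace (Fin 1 → ℕ → ℕ → Bool) := Pi.borelSpace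
    exact Prod.borelSpace
  rcases h (dn ⁻¹' B) (c1.measurable hB) (fun x hx σ => by
      have h1 : Iso (dn x) (dn (aS σ x)) := (iso_iff _ _).2 ⟨σ, by rw [up_dn, up_dn]⟩
      exact (hi _ _ h1).1 hx) (fun x hx => hK _ hx) with ⟨f, hf⟩ | ⟨g, hg, hgB, hgi⟩
  · left
    refine ⟨fun n => dn (f n), fun x hx => ?_⟩
    obtain ⟨n, σ, hσ⟩ := hf (up x) hx
    exact ⟨n, (iso_iff _ _).2 ⟨σ, by rw [up_dn]; exact hσ⟩⟩
  · right
    refine ⟨fun c => dn (g c), c1.comp hg, hgB, fun c d hcd => ?_⟩
    obtain ⟨σ, hσ⟩ := (iso_iff _ _).1 hcd
    rw [up_dn, up_dn] at hσ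
    exact hgi c d ⟨σ, hσ⟩

/-- The countable-or-perfect dichotomy for isomorphism types, with unary predicates, holds for the
tournaments all of whose infinite prime subtournaments omit some tournament with four points, in
particular for the tournaments that omit a fixed tournament with four points. -/
theorem result : CountableOrPerfect Tournaments ∧
    ∀ H : Fin 4 → Fin 4 → Prop, IsTournament H →
      CountableOrPerfect fun A => IsTournament A ∧ ¬ Contains H A := by
  have h1 := Pool.Agent.K1H62.LT.vs_TG
  have main : CountableOrPerfect Tournaments := by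
    refine dicho_of fun B k1 k2 k3 => h1 B k1 k2 fun x hx => ?_
    have h := k3 x hx
    have hT : Pool.Agent.K1H62.LT.Tour fun u v => x.1 0 u v = true :=
      ⟨h.tournament.asymm, h.tournament.total⟩
    refine ⟨hT, fun e he hp => ?_⟩
    obtain ⟨H, hH, hc⟩ := h.prime e he hp
    exact Pool.Agent.K1H62.LT.local_of (hT.comap he) hp ⟨hH.asymm, hH.total⟩ hc
  exact ⟨main, fun H hH B k1 k2 k3 => main B k1 k2 fun x hx => omitting hH (k3 x hx).1 (k3 x hx).2⟩

end Pool.Agent.Results.MP_5607ba_lc.TournamentsOmittingFourPoints
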